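import Mathlib
import Pool.Agent.J4H61.QB.Stm3

/-!
# Invariance of the adjoint
-/

set_option autoImplicit false

open Matrix MeasureTheory
open Pool.Agent.V11219.MomentOp Pool.Agent.J4H61.QB

namespace Pool.Agent.J4H79.QB

lemma conj_single {d : ℕ} (U : Mat d) (i j k l : Fin d) :
    conjU U (Matrix.single i j 1) k l = U k i * star (U l j) := by
  simp only [conjU, LinearMap.coe_mk, AddHom.coe_mk]
  rw [Matrix.mul_apply, Finset.sum_eq_single j]
  · rw [Matrix.conjTranspose_apply, Matrix.mul_apply, Finset.sum_eq_single i]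
    · rw [Matrix.single_apply_same, mul_one]
    · intro b _ hb
      rw [Matrix.single_apply_of_ne _ _ _ _ _ (by simp [hb.symm]), mul_zero]
    · simp
  · intro b _ hb
    rw [Matrix.mul_apply, Finset.sum_eq_zero, zero_mul]
    intro c _
    rw [Matrix.single_apply_of_ne _ _ _ _ _ (by simp [hb.symm]), mul_zero]
  · simp

lemma tp_conj {d t : ℕ} (U : Mat d) (Y : MatT d t) (k l : Fin t → Fin d) :
    tensorPow t (conjU U) Y k l = ∑ a, ∑ b, Y a b * (pw t U k a * star (pw t U l b)) := by
  simp only [tensorPow, LinearMap.coe_mk, AddHom.coe_mk, Matrix.of_apply, conj_single, pw,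
    Finset.prod_mul_distrib, star_prod]

lemma cont_pw {d t : ℕ} (a k : Fin t → Fin d) :
    Continuous fun U : Matrix.unitaryGroup (Fin d) ℂ => pw t (U : Mat d) a k := by
  simp only [pw, Matrix.of_apply]
  apply continuous_finsetProd
  intro s _
  exact continuous_subtype_val.matrix_elem _ _

lemma int_pw {d t : ℕ} (a k b l : Fin t → Fin d) (c : ℂ) :
    Integrable (fun U : Matrix.unitaryGroup (Fin d) ℂ =>
      pw t (U : Mat d) a k * star (pw t (U : Mat d) b l) * c) (haarU (Fin d)) :=
  (((cont_pw a k).mul (cont_pw b l).star).mul continuous_const).integrable_of_hasCompactSupport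
    (HasCompactSupport.of_compactSpace _)

theorem t_AE : S_AE := by
  intro d t A hA k l
  ext i j
  have h1 : adj A (Matrix.single k l 1) i j = star (A (Matrix.single i j 1) k l) := by
    simp only [adj, LinearMap.coe_mk, AddHom.coe_mk, Matrix.of_apply]
    rw [Finset.sum_eq_single k, Finset.sum_eq_single l]
    · rw [Matrix.single_apply_same, one_mul]
    · intro b _ hb
      rw [Matrix.single_apply_of_ne _ _ _ _ _ (by simp [hb.symm]), zero_mul]
    · simp
    · intro b _ hb
      apply Finset.sum_eq_zero
      intro c _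
      rw [Matrix.single_apply_of_ne _ _ _ _ _ (by simp [hb.symm]), zero_mul]
    · simp
  have h2 : adj A (Ebar d t k l) i j = ∫ U : Matrix.unitaryGroup (Fin d) ℂ,
      ∑ a, ∑ b, pw t (U : Mat d) a k * star (pw t (U : Mat d) b l) *
        star (A (Matrix.single i j 1) a b) ∂(haarU (Fin d)) := by
    rw [integral_finsetSum _ (fun a _ => integrable_finsetSum _ (fun b _ => int_pw _ _ _ _ _))]
    simp only [adj, LinearMap.coe_mk, AddHom.coe_mk, Matrix.of_apply, Ebar]
    refine Finset.sum_congr rfl fun a _ => ?_
    rw [integral_finsetSum _ (fun b _ => int_pw _ _ _ _ _)]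
    refine Finset.sum_congr rfl fun b _ => ?_
    rw [integral_mul_const]
  have h3 : ∀ U : Matrix.unitaryGroup (Fin d) ℂ,
      ∑ a, ∑ b, pw t (U : Mat d) a k * star (pw t (U : Mat d) b l) *
        star (A (Matrix.single i j 1) a b) = star (A (Matrix.single i j 1) k l) := by
    intro U
    have h4 := congrArg (fun B : MatT d t →ₗ[ℂ] MatT d t => B (Matrix.single i j 1) k l) (hA U⁻¹)
    simp only [LinearMap.comp_apply] at h4
    rw [tp_conj] at h4
    rw [← h4, star_sum]
    refine Finset.sum_congr rfl fun a _ => ?_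
    rw [star_sum]
    refine Finset.sum_congr rfl fun b _ => ?_
    have h5 : ∀ p q : Fin t → Fin d, pw t ((U⁻¹ : Matrix.unitaryGroup (Fin d) ℂ) : Mat d) p q =
        star (pw t (U : Mat d) q p) := by
      intro p q
      simp only [pw, Matrix.of_apply, star_prod]
      rfl
    rw [h5, h5, star_mul', star_mul', star_star, star_star]
    ring
  rw [h1, h2]
  simp only [h3]
  rw [integral_const]
  simp

end Pool.Agent.J4H79.QB
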