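import Mathlib
import Pool.Agent.J4H61.QB.Stm3

/-!
# Invariance of the output of the moment operator
-/

set_option autoImplicit false

open Matrix MeasureTheory
open Pool.Agent.V11219.MomentOp Pool.Agent.J4H61.QB

namespace Pool.Agent.J4H79.QB

lemma tensorPow_single {d : ℕ} (t : ℕ) (Φ : Mat d →ₗ[ℂ] Mat d) (i j k l : Fin t → Fin d) :
    tensorPow t Φ (Matrix.single i j 1) k l = ∏ s, Φ (Matrix.single (i s) (j s) 1) (k s) (l s) := by
  simp only [tensorPow, LinearMap.coe_mk, AddHom.coe_mk, Matrix.of_apply]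
  rw [Finset.sum_eq_single i, Finset.sum_eq_single j]
  · rw [Matrix.single_apply_same, one_mul]
  · intro b _ hb
    rw [Matrix.single_apply_of_ne _ _ _ _ _ (by simp [hb.symm]), zero_mul]
  · simp
  · intro b _ hb
    apply Finset.sum_eq_zero
    intro c _
    rw [Matrix.single_apply_of_ne _ _ _ _ _ (by simp [hb.symm]), zero_mul]
  · simp

lemma tensorPow_eq {d : ℕ} (t : ℕ) (Φ : Mat d →ₗ[ℂ] Mat d) (X : MatT d t) (k l : Fin t → Fin d) :
    tensorPow t Φ X k l = ∑ i, ∑ j, X i j * tensorPow t Φ (Matrix.single i j 1) k l := by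
  simp only [tensorPow_single]
  rfl

/-- tensor powers of compositions -/
lemma tensorPow_comp {d : ℕ} (t : ℕ) (Φ Ψ : Mat d →ₗ[ℂ] Mat d) (X : MatT d t) :
    tensorPow t (Φ ∘ₗ Ψ) X = tensorPow t Φ (tensorPow t Ψ X) := by
  have h1 : ∀ i j : Fin t → Fin d, tensorPow t (Φ ∘ₗ Ψ) (Matrix.single i j 1) =
      tensorPow t Φ (tensorPow t Ψ (Matrix.single i j 1)) := by
    intro i j
    have h2 : tensorPow t Ψ (Matrix.single i j 1) =
        Matrix.of fun k l => ∏ s, Ψ (Matrix.single (i s) (j s) 1) (k s) (l s) := by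
      ext k l
      rw [tensorPow_single, Matrix.of_apply]
    rw [h2, tensorPow_pure]
    ext k l
    rw [tensorPow_single, Matrix.of_apply]
    rfl
  have hX : X = ∑ i, ∑ j, X i j • Matrix.single i j (1 : ℂ) := by
    conv_lhs => rw [Matrix.matrix_eq_sum_single X]
    refine Finset.sum_congr rfl fun i _ => Finset.sum_congr rfl fun j _ => ?_
    rw [Matrix.smul_single, smul_eq_mul, mul_one]
  rw [hX]
  simp only [map_sum, map_smul, h1]

section

variable {d dE : ℕ}

lemma cont_dil (ψ : Fin dE → ℂ) (X : Mat d) (a b : Fin d) :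
    Continuous fun V : Matrix.unitaryGroup (Fin d × Fin dE) ℂ =>
      dilated ψ (V : Matrix (Fin d × Fin dE) (Fin d × Fin dE) ℂ) X a b := by
  simp only [dilated, LinearMap.coe_mk, AddHom.coe_mk, Matrix.of_apply]
  apply continuous_finsetSum
  intro x _
  exact ((continuous_subtype_val.matrix_mul continuous_const).matrix_mul
    continuous_subtype_val.matrix_conjTranspose).matrix_elem _ _

lemma cont_T (t : ℕ) (ψ : Fin dE → ℂ) (X : MatT d t) (k l : Fin t → Fin d) :
    Continuous fun V : Matrix.unitaryGroup (Fin d × Fin dE) ℂ =>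
      tensorPow t (dilated ψ (V : Matrix (Fin d × Fin dE) (Fin d × Fin dE) ℂ)) X k l := by
  simp only [tensorPow, LinearMap.coe_mk, AddHom.coe_mk, Matrix.of_apply]
  apply continuous_finsetSum
  intro i _
  apply continuous_finsetSum
  intro j _
  apply continuous_const.mul
  apply continuous_finsetProd
  intro s _
  exact cont_dil ψ _ _ _

lemma int_T (t : ℕ) (ψ : Fin dE → ℂ) (X : MatT d t) (k l : Fin t → Fin d) :
    Integrable (fun V : Matrix.unitaryGroup (Fin d × Fin dE) ℂ =>
      tensorPow t (dilated ψ (V : Matrix (Fin d × Fin dE) (Fin d × Fin dE) ℂ)) X k l)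
      (haarU (Fin d × Fin dE)) :=
  (cont_T t ψ X k l).integrable_of_hasCompactSupport (HasCompactSupport.of_compactSpace _)

/-- the moment operator is the mean of the tensor powers -/
lemma cOp_apply (t : ℕ) (ψ : Fin dE → ℂ) (X : MatT d t) (k l : Fin t → Fin d) :
    cOp t d dE ψ X k l = ∫ V : Matrix.unitaryGroup (Fin d × Fin dE) ℂ,
      tensorPow t (dilated ψ (V : Matrix (Fin d × Fin dE) (Fin d × Fin dE) ℂ)) X k l
        ∂(haarU (Fin d × Fin dE)) := by
  have h1 : ∀ V : Matrix.unitaryGroup (Fin d × Fin dE) ℂ,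
      tensorPow t (dilated ψ (V : Matrix (Fin d × Fin dE) (Fin d × Fin dE) ℂ)) X k l =
      ∑ i, ∑ j, X i j *
        tensorPow t (dilated ψ (V : Matrix (Fin d × Fin dE) (Fin d × Fin dE) ℂ))
          (Matrix.single i j 1) k l := fun V => tensorPow_eq t _ X k l
  simp only [h1]
  rw [integral_finsetSum _ (fun i _ => integrable_finsetSum _ (fun j _ =>
    (int_T t ψ _ k l).const_mul _))]
  simp only [cOp, momentOp, LinearMap.coe_mk, AddHom.coe_mk, Matrix.of_apply]
  refine Finset.sum_congr rfl fun i _ => ?_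
  rw [integral_finsetSum _ (fun j _ => (int_T t ψ _ k l).const_mul _)]
  refine Finset.sum_congr rfl fun j _ => ?_
  rw [integral_const_mul]

/-- the unitary `U ⊗ 1` -/
noncomputable def kr (dE : ℕ) (U : Matrix.unitaryGroup (Fin d) ℂ) :
    Matrix.unitaryGroup (Fin d × Fin dE) ℂ :=
  ⟨Matrix.kronecker (U : Mat d) (1 : Matrix (Fin dE) (Fin dE) ℂ),
    Matrix.kronecker_mem_unitary U.2 (Matrix.unitaryGroup (Fin dE) ℂ).one_mem⟩

lemma dil_kr (ψ : Fin dE → ℂ) (U : Matrix.unitaryGroup (Fin d) ℂ)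
    (V : Matrix.unitaryGroup (Fin d × Fin dE) ℂ) :
    dilated ψ ((kr dE U * V : Matrix.unitaryGroup (Fin d × Fin dE) ℂ) :
      Matrix (Fin d × Fin dE) (Fin d × Fin dE) ℂ) =
    conjU (U : Mat d) ∘ₗ dilated ψ (V : Matrix (Fin d × Fin dE) (Fin d × Fin dE) ℂ) := by
  apply LinearMap.ext
  intro X
  ext k l
  simp only [dilated, conjU, LinearMap.coe_mk, AddHom.coe_mk, LinearMap.comp_apply]
  have h1 : ∀ (N : Matrix (Fin d × Fin dE) (Fin d × Fin dE) ℂ) (x : Fin dE),
      (((kr dE U : Matrix.unitaryGroup (Fin d × Fin dE) ℂ) :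
        Matrix (Fin d × Fin dE) (Fin d × Fin dE) ℂ) * N *
        (((kr dE U : Matrix.unitaryGroup (Fin d × Fin dE) ℂ) :
        Matrix (Fin d × Fin dE) (Fin d × Fin dE) ℂ))ᴴ) (k, x) (l, x) =
      ∑ b, (∑ a, (U : Mat d) k a * N (a, x) (b, x)) * star ((U : Mat d) l b) := by
    intro N x
    rw [Matrix.mul_apply, Fintype.sum_prod_type]
    refine Finset.sum_congr rfl fun b _ => ?_
    rw [Finset.sum_eq_single x]
    · rw [Matrix.mul_apply, Fintype.sum_prod_type, Matrix.conjTranspose_apply]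
      congr 1
      · refine Finset.sum_congr rfl fun a _ => ?_
        rw [Finset.sum_eq_single x]
        · simp [kr]
        · intro y _ hy
          simp [kr, Matrix.one_apply_ne hy.symm]
        · simp
      · simp [kr]
    · intro y _ hy
      rw [Matrix.conjTranspose_apply]
      simp [kr, Matrix.one_apply_ne hy.symm]
    · simp
  simp only [Matrix.of_apply]
  have h2 : ∀ x : Fin dE, (((kr dE U * V : Matrix.unitaryGroup (Fin d × Fin dE) ℂ) :
      Matrix (Fin d × Fin dE) (Fin d × Fin dE) ℂ) *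
      (Matrix.kronecker X (Matrix.vecMulVec ψ (star ψ))) *
      ((kr dE U * V : Matrix.unitaryGroup (Fin d × Fin dE) ℂ) :
      Matrix (Fin d × Fin dE) (Fin d × Fin dE) ℂ)ᴴ) (k, x) (l, x) =
      ∑ b, (∑ a, (U : Mat d) k a * ((V : Matrix (Fin d × Fin dE) (Fin d × Fin dE) ℂ) *
        (Matrix.kronecker X (Matrix.vecMulVec ψ (star ψ))) *
        (V : Matrix (Fin d × Fin dE) (Fin d × Fin dE) ℂ)ᴴ) (a, x) (b, x)) *
        star ((U : Mat d) l b) := by
    intro x
    rw [← h1]
    rw [Submonoid.coe_mul, Matrix.conjTranspose_mul]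
    simp only [Matrix.mul_assoc]
  rw [Finset.sum_congr rfl fun x _ => h2 x, Matrix.mul_apply]
  rw [Finset.sum_comm]
  refine Finset.sum_congr rfl fun b _ => ?_
  rw [← Finset.sum_mul, Matrix.conjTranspose_apply, Matrix.mul_apply, Finset.sum_comm]
  congr 1
  refine Finset.sum_congr rfl fun a _ => ?_
  rw [Matrix.of_apply, Finset.mul_sum]

end

theorem t_INV : S_INV := by
  intro t d dE ψ U
  apply LinearMap.ext
  intro X
  ext k l
  rw [LinearMap.comp_apply]
  have h1 : tensorPow t (conjU (U : Mat d)) (cOp t d dE ψ X) k l =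
      ∫ V : Matrix.unitaryGroup (Fin d × Fin dE) ℂ, tensorPow t (conjU (U : Mat d))
        (tensorPow t (dilated ψ (V : Matrix (Fin d × Fin dE) (Fin d × Fin dE) ℂ)) X) k l
          ∂(haarU (Fin d × Fin dE)) := by
    obtain ⟨c, hc⟩ : ∃ c : (Fin t → Fin d) → (Fin t → Fin d) → ℂ, ∀ Y : MatT d t,
        tensorPow t (conjU (U : Mat d)) Y k l = ∑ i, ∑ j, Y i j * c i j :=
      ⟨fun i j => tensorPow t (conjU (U : Mat d)) (Matrix.single i j 1) k l,
        fun Y => tensorPow_eq t _ Y k l⟩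
    simp only [hc]
    rw [integral_finsetSum _ (fun i _ => integrable_finsetSum _ (fun j _ =>
      (int_T t ψ X i j).mul_const _))]
    refine Finset.sum_congr rfl fun i _ => ?_
    rw [integral_finsetSum _ (fun j _ => (int_T t ψ X i j).mul_const _)]
    refine Finset.sum_congr rfl fun j _ => ?_
    rw [integral_mul_const, cOp_apply]
  have h2 := integral_mul_left_eq_self (μ := haarU (Fin d × Fin dE))
    (fun V : Matrix.unitaryGroup (Fin d × Fin dE) ℂ =>
      tensorPow t (dilated ψ (V : Matrix (Fin d × Fin dE) (Fin d × Fin dE) ℂ)) X k l) (kr dE U)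
  rw [h1, cOp_apply, ← h2]
  congr 1
  funext V
  rw [dil_kr, tensorPow_comp]

end Pool.Agent.J4H79.QB
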