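import Mathlib
import Pool.Agent.J4H61.QB.Stm4
import Pool.Agent.J4H89.QB.Diag

/-!
# Schwinger-Dyson equations
-/

set_option autoImplicit false

open Matrix MeasureTheory
open scoped ComplexOrder
open Pool.Agent.V11219.MomentOp Pool.Agent.J4H61.QB

namespace Pool.Agent.J4H79.QB

/-! ## Derivative of a trigonometric polynomial -/

lemma deriv_lem (n : ℕ) (c : ℕ → ℕ → ℂ)
    (hconst : ∀ θ : ℝ, ∑ j ∈ Finset.range (n + 2), ∑ k ∈ Finset.range (n + 2),
      (Complex.exp (θ * Complex.I) - 1) ^ j * (Complex.exp (-(θ * Complex.I)) - 1) ^ k * c j k =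
        c 0 0) : c 1 0 = c 0 1 := by
  have hu : HasDerivAt (fun θ : ℝ => Complex.exp (θ * Complex.I) - 1) Complex.I 0 := by
    have h1 : HasDerivAt (fun θ : ℝ => (θ : ℂ) * Complex.I) (1 * Complex.I) 0 :=
      (Complex.ofRealCLM.hasDerivAt (x := (0 : ℝ))).mul_const Complex.I
    have h2 := (h1.cexp).sub_const 1
    simpa using h2
  have hw : HasDerivAt (fun θ : ℝ => Complex.exp (-(θ * Complex.I)) - 1) (-Complex.I) 0 := by
    have h1 : HasDerivAt (fun θ : ℝ => (θ : ℂ) * Complex.I) (1 * Complex.I) 0 :=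
      (Complex.ofRealCLM.hasDerivAt (x := (0 : ℝ))).mul_const Complex.I
    have h2 := (h1.neg.cexp).sub_const 1
    simpa using h2
  have hD : HasDerivAt (fun θ : ℝ => ∑ j ∈ Finset.range (n + 2), ∑ k ∈ Finset.range (n + 2),
      (Complex.exp (θ * Complex.I) - 1) ^ j * (Complex.exp (-(θ * Complex.I)) - 1) ^ k * c j k)
      (∑ j ∈ Finset.range (n + 2), ∑ k ∈ Finset.range (n + 2),
        (((j : ℂ) * (0 : ℂ) ^ (j - 1) * Complex.I) * (0 : ℂ) ^ k +
          (0 : ℂ) ^ j * ((k : ℂ) * (0 : ℂ) ^ (k - 1) * (-Complex.I))) * c j k) 0 := by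
    apply HasDerivAt.fun_sum
    intro j _
    apply HasDerivAt.fun_sum
    intro k _
    have h3 := ((hu.fun_pow j).mul (hw.fun_pow k)).mul_const (c j k)
    simpa using h3
  have hz : HasDerivAt (fun θ : ℝ => ∑ j ∈ Finset.range (n + 2), ∑ k ∈ Finset.range (n + 2),
      (Complex.exp (θ * Complex.I) - 1) ^ j * (Complex.exp (-(θ * Complex.I)) - 1) ^ k * c j k)
      0 0 := by
    have : (fun θ : ℝ => ∑ j ∈ Finset.range (n + 2), ∑ k ∈ Finset.range (n + 2),
      (Complex.exp (θ * Complex.I) - 1) ^ j * (Complex.exp (-(θ * Complex.I)) - 1) ^ k * c j k) =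
        fun _ => c 0 0 := funext hconst
    rw [this]
    exact hasDerivAt_const _ _
  have h4 := hD.unique hz
  have h5 : ∑ j ∈ Finset.range (n + 2), ∑ k ∈ Finset.range (n + 2),
        (((j : ℂ) * (0 : ℂ) ^ (j - 1) * Complex.I) * (0 : ℂ) ^ k +
          (0 : ℂ) ^ j * ((k : ℂ) * (0 : ℂ) ^ (k - 1) * (-Complex.I))) * c j k =
      Complex.I * c 1 0 - Complex.I * c 0 1 := by
    have e1 : ∑ j ∈ Finset.range (n + 2), ∑ k ∈ Finset.range (n + 2),
        ((j : ℂ) * (0 : ℂ) ^ (j - 1) * Complex.I) * (0 : ℂ) ^ k * c j k = Complex.I * c 1 0 := by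
      rw [Finset.sum_eq_single 1, Finset.sum_eq_single 0]
      · simp
      · intro k _ hk
        rw [zero_pow hk]; simp
      · intro h; simp at h
      · intro j _ hj
        apply Finset.sum_eq_zero
        intro k _
        rcases j with _ | _ | j
        · simp
        · exact absurd rfl hj
        · rw [show j + 1 + 1 - 1 = j + 1 by omega, zero_pow (by omega)]; simp
      · intro h; simp at h
    have e2 : ∑ j ∈ Finset.range (n + 2), ∑ k ∈ Finset.range (n + 2),
        (0 : ℂ) ^ j * ((k : ℂ) * (0 : ℂ) ^ (k - 1) * (-Complex.I)) * c j k =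
          -(Complex.I * c 0 1) := by
      rw [Finset.sum_eq_single 0, Finset.sum_eq_single 1]
      · simp
      · intro k _ hk
        rcases k with _ | _ | k
        · simp
        · exact absurd rfl hk
        · rw [show k + 1 + 1 - 1 = k + 1 by omega, zero_pow (n := k + 1) (by omega)]; simp
      · intro h; simp at h
      · intro j _ hj
        apply Finset.sum_eq_zero
        intro k _
        rw [zero_pow hj]; simp
      · intro h; simp at h
    rw [sub_eq_add_neg, ← e1, ← e2, ← Finset.sum_add_distrib]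
    refine Finset.sum_congr rfl fun j _ => ?_
    rw [← Finset.sum_add_distrib]
    refine Finset.sum_congr rfl fun k _ => ?_
    ring
  rw [h5, ← mul_sub] at h4
  rcases mul_eq_zero.1 h4 with h6 | h6
  · exact absurd h6 Complex.I_ne_zero
  · exact sub_eq_zero.1 h6

section

variable {d : ℕ}

lemma integ {f : Matrix.unitaryGroup (Fin d) ℂ → ℂ} (hf : Continuous f) :
    Integrable f (haarU (Fin d)) :=
  hf.integrable_of_hasCompactSupport (HasCompactSupport.of_compactSpace _)

/-- the first-order term of an invariance -/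
lemma core (n : ℕ) (a p b q : Matrix.unitaryGroup (Fin d) ℂ → ℂ) (ha : Continuous a)
    (hp : Continuous p) (hb : Continuous b) (hq : Continuous q)
    (hinv : ∀ θ : ℝ, ∫ U, (a U + (Complex.exp (θ * Complex.I) - 1) * p U) ^ (n + 1) *
      (b U + (Complex.exp (-(θ * Complex.I)) - 1) * q U) ^ (n + 1) ∂(haarU (Fin d)) =
        ∫ U, a U ^ (n + 1) * b U ^ (n + 1) ∂(haarU (Fin d))) :
    ∫ U, a U ^ n * p U * b U ^ (n + 1) ∂(haarU (Fin d)) =
      ∫ U, a U ^ (n + 1) * (b U ^ n * q U) ∂(haarU (Fin d)) := by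
  set c : ℕ → ℕ → ℂ := fun j k => (((n + 1).choose j : ℂ) * ((n + 1).choose k : ℂ)) *
    ∫ U, (p U ^ j * a U ^ (n + 1 - j)) * (q U ^ k * b U ^ (n + 1 - k)) ∂(haarU (Fin d)) with hc
  have hcont : ∀ j k : ℕ, Continuous fun U : Matrix.unitaryGroup (Fin d) ℂ =>
      (p U ^ j * a U ^ (n + 1 - j)) * (q U ^ k * b U ^ (n + 1 - k)) := fun j k =>
    ((hp.pow j).mul (ha.pow _)).mul ((hq.pow k).mul (hb.pow _))
  have hexp : ∀ u w : ℂ, ∫ U, (a U + u * p U) ^ (n + 1) * (b U + w * q U) ^ (n + 1)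
      ∂(haarU (Fin d)) =
      ∑ j ∈ Finset.range (n + 2), ∑ k ∈ Finset.range (n + 2), u ^ j * w ^ k * c j k := by
    intro u w
    have h1 : ∀ U : Matrix.unitaryGroup (Fin d) ℂ,
        (a U + u * p U) ^ (n + 1) * (b U + w * q U) ^ (n + 1) =
        ∑ j ∈ Finset.range (n + 2), ∑ k ∈ Finset.range (n + 2),
          (u ^ j * w ^ k * (((n + 1).choose j : ℂ) * ((n + 1).choose k : ℂ))) *
            ((p U ^ j * a U ^ (n + 1 - j)) * (q U ^ k * b U ^ (n + 1 - k))) := by
      intro U
      rw [add_comm (a U), add_comm (b U), add_pow, add_pow, Finset.sum_mul_sum]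
      refine Finset.sum_congr rfl fun j _ => Finset.sum_congr rfl fun k _ => ?_
      rw [mul_pow, mul_pow]
      ring
    simp only [h1]
    rw [integral_finsetSum _ (fun j _ => integrable_finsetSum _ (fun k _ =>
      (integ (hcont j k)).const_mul _))]
    refine Finset.sum_congr rfl fun j _ => ?_
    rw [integral_finsetSum _ (fun k _ => (integ (hcont j k)).const_mul _)]
    refine Finset.sum_congr rfl fun k _ => ?_
    rw [integral_const_mul, hc]
    ring
  have h2 := deriv_lem n c (by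
    intro θ
    rw [← hexp, hinv, hc]
    simp)
  simp only [hc, Nat.choose_one_right, Nat.choose_zero_right] at h2
  have hn : ((n + 1 : ℕ) : ℂ) ≠ 0 := by exact_mod_cast (Nat.succ_ne_zero n)
  have h3 : ((n + 1 : ℕ) : ℂ) * ∫ U, a U ^ n * p U * b U ^ (n + 1) ∂(haarU (Fin d)) =
      ((n + 1 : ℕ) : ℂ) * ∫ U, a U ^ (n + 1) * (b U ^ n * q U) ∂(haarU (Fin d)) := by
    calc ((n + 1 : ℕ) : ℂ) * ∫ U, a U ^ n * p U * b U ^ (n + 1) ∂(haarU (Fin d))
        = (((n + 1 : ℕ) : ℂ) * ((1 : ℕ) : ℂ)) * ∫ U, (p U ^ 1 * a U ^ (n + 1 - 1)) *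
            (q U ^ 0 * b U ^ (n + 1 - 0)) ∂(haarU (Fin d)) := by
          rw [Nat.cast_one, mul_one]
          congr 1
          apply integral_congr_ae
          filter_upwards with U
          simp only [pow_one, pow_zero, Nat.add_sub_cancel, Nat.sub_zero, one_mul]
          ring
      _ = (((1 : ℕ) : ℂ) * ((n + 1 : ℕ) : ℂ)) * ∫ U, (p U ^ 0 * a U ^ (n + 1 - 0)) *
            (q U ^ 1 * b U ^ (n + 1 - 1)) ∂(haarU (Fin d)) := h2
      _ = ((n + 1 : ℕ) : ℂ) * ∫ U, a U ^ (n + 1) * (b U ^ n * q U) ∂(haarU (Fin d)) := by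
          rw [Nat.cast_one, one_mul]
          congr 1
          apply integral_congr_ae
          filter_upwards with U
          simp only [pow_one, pow_zero, Nat.add_sub_cancel, Nat.sub_zero, one_mul]
          ring
  exact mul_left_cancel₀ hn h3

/-- the unitaries `1 + (z - 1) P` -/
noncomputable def gu (P : Mat d) (hP : P * P = P) (hPs : Pᴴ = P) (θ : ℝ) :
    Matrix.unitaryGroup (Fin d) ℂ :=
  ⟨1 + (Complex.exp (θ * Complex.I) - 1) • P, by
    rw [Matrix.mem_unitaryGroup_iff, Matrix.star_eq_conjTranspose, Matrix.conjTranspose_add,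
      Matrix.conjTranspose_one, Matrix.conjTranspose_smul, hPs]
    have h1 : star (Complex.exp (θ * Complex.I) - 1) = Complex.exp (-(θ * Complex.I)) - 1 := by
      rw [star_sub, star_one]
      congr 1
      change (starRingEnd ℂ) (Complex.exp (θ * Complex.I)) = _
      rw [← Complex.exp_conj]
      simp
    rw [h1]
    have h2 : Complex.exp (θ * Complex.I) * Complex.exp (-(θ * Complex.I)) = 1 := by
      rw [← Complex.exp_add]
      simp
    set z := Complex.exp (θ * Complex.I)
    set z' := Complex.exp (-(θ * Complex.I))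
    rw [Matrix.add_mul, Matrix.mul_add, Matrix.mul_add, Matrix.one_mul, Matrix.one_mul,
      Matrix.mul_one, Matrix.smul_mul, Matrix.mul_smul, hP, smul_smul, add_assoc, ← add_smul,
      ← add_smul]
    have h3 : z' - 1 + (z - 1 + (z - 1) * (z' - 1)) = 0 := by
      have : z' - 1 + (z - 1 + (z - 1) * (z' - 1)) = z * z' - 1 := by ring
      rw [this, h2, sub_self]
    rw [h3, zero_smul, add_zero]⟩

lemma gu_coe (P : Mat d) (hP : P * P = P) (hPs : Pᴴ = P) (θ : ℝ) :
    ((gu P hP hPs θ : Matrix.unitaryGroup (Fin d) ℂ) : Mat d) =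
      1 + (Complex.exp (θ * Complex.I) - 1) • P := rfl

lemma gu_star (P : Mat d) (hP : P * P = P) (hPs : Pᴴ = P) (θ : ℝ) :
    ((gu P hP hPs θ : Matrix.unitaryGroup (Fin d) ℂ) : Mat d)ᴴ =
      1 + (Complex.exp (-(θ * Complex.I)) - 1) • P := by
  rw [gu_coe, Matrix.conjTranspose_add, Matrix.conjTranspose_one, Matrix.conjTranspose_smul, hPs]
  congr 2
  rw [star_sub, star_one]
  congr 1
  change (starRingEnd ℂ) (Complex.exp (θ * Complex.I)) = _
  rw [← Complex.exp_conj]
  simp

lemma cont_tr (B : Mat d) : Continuous fun U : Matrix.unitaryGroup (Fin d) ℂ =>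
    Matrix.trace (B * (U : Mat d)) :=
  (continuous_const.matrix_mul continuous_subtype_val).matrix_trace

lemma cont_tr' (B : Mat d) : Continuous fun U : Matrix.unitaryGroup (Fin d) ℂ =>
    Matrix.trace (B * (U : Mat d)ᴴ) :=
  (continuous_const.matrix_mul continuous_subtype_val.matrix_conjTranspose).matrix_trace

lemma cont_tr0 : Continuous fun U : Matrix.unitaryGroup (Fin d) ℂ => Matrix.trace (U : Mat d) :=
  continuous_subtype_val.matrix_trace

/-- the equations for projections -/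
lemma sd_proj (n : ℕ) (B P : Mat d) (hP : P * P = P) (hPs : Pᴴ = P) :
    (∫ U : Matrix.unitaryGroup (Fin d) ℂ, (Matrix.trace (U : Mat d)) ^ n *
        Matrix.trace (P * (U : Mat d)) * (Matrix.trace (B * (U : Mat d)ᴴ)) ^ (n + 1)
          ∂(haarU (Fin d)) =
      ∫ U : Matrix.unitaryGroup (Fin d) ℂ, (Matrix.trace (U : Mat d)) ^ (n + 1) *
        ((Matrix.trace (B * (U : Mat d)ᴴ)) ^ n * Matrix.trace (P * B * (U : Mat d)ᴴ))
          ∂(haarU (Fin d))) ∧
    (∫ U : Matrix.unitaryGroup (Fin d) ℂ, (Matrix.trace (U : Mat d)) ^ n *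
        Matrix.trace (P * (U : Mat d)) * (Matrix.trace (B * (U : Mat d)ᴴ)) ^ (n + 1)
          ∂(haarU (Fin d)) =
      ∫ U : Matrix.unitaryGroup (Fin d) ℂ, (Matrix.trace (U : Mat d)) ^ (n + 1) *
        ((Matrix.trace (B * (U : Mat d)ᴴ)) ^ n * Matrix.trace (B * P * (U : Mat d)ᴴ))
          ∂(haarU (Fin d))) := by
  constructor
  · apply core n _ _ _ _ cont_tr0 (cont_tr P) (cont_tr' B) (cont_tr' (P * B))
    intro θ
    have h1 := integral_mul_left_eq_self (μ := haarU (Fin d))
      (fun U : Matrix.unitaryGroup (Fin d) ℂ => (Matrix.trace (U : Mat d)) ^ (n + 1) *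
        (Matrix.trace (B * (U : Mat d)ᴴ)) ^ (n + 1)) (gu P hP hPs θ)
    rw [← h1]
    congr 1
    funext U
    have e1 : Matrix.trace (((gu P hP hPs θ * U : Matrix.unitaryGroup (Fin d) ℂ) : Mat d)) =
        Matrix.trace (U : Mat d) +
          (Complex.exp (θ * Complex.I) - 1) * Matrix.trace (P * (U : Mat d)) := by
      rw [Submonoid.coe_mul, gu_coe, Matrix.add_mul, Matrix.one_mul, Matrix.smul_mul,
        Matrix.trace_add, Matrix.trace_smul, smul_eq_mul]
    have e2 : Matrix.trace (B * ((gu P hP hPs θ * U : Matrix.unitaryGroup (Fin d) ℂ) : Mat d)ᴴ) =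
        Matrix.trace (B * (U : Mat d)ᴴ) +
          (Complex.exp (-(θ * Complex.I)) - 1) * Matrix.trace (P * B * (U : Mat d)ᴴ) := by
      rw [Submonoid.coe_mul, Matrix.conjTranspose_mul, gu_star, Matrix.mul_add, Matrix.mul_one,
        Matrix.mul_smul, Matrix.mul_add, Matrix.mul_smul, Matrix.trace_add, Matrix.trace_smul,
        smul_eq_mul]
      congr 2
      rw [← Matrix.mul_assoc, Matrix.trace_mul_comm, ← Matrix.mul_assoc]
    rw [e1, e2]
  · apply core n _ _ _ _ cont_tr0 (cont_tr P) (cont_tr' B) (cont_tr' (B * P))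
    intro θ
    have h1 := integral_mul_right_eq_self (μ := haarU (Fin d))
      (fun U : Matrix.unitaryGroup (Fin d) ℂ => (Matrix.trace (U : Mat d)) ^ (n + 1) *
        (Matrix.trace (B * (U : Mat d)ᴴ)) ^ (n + 1)) (gu P hP hPs θ)
    rw [← h1]
    congr 1
    funext U
    have e1 : Matrix.trace (((U * gu P hP hPs θ : Matrix.unitaryGroup (Fin d) ℂ) : Mat d)) =
        Matrix.trace (U : Mat d) +
          (Complex.exp (θ * Complex.I) - 1) * Matrix.trace (P * (U : Mat d)) := by
      rw [Submonoid.coe_mul, gu_coe, Matrix.mul_add, Matrix.mul_one, Matrix.mul_smul,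
        Matrix.trace_add, Matrix.trace_smul, smul_eq_mul, Matrix.trace_mul_comm (U : Mat d) P]
    have e2 : Matrix.trace (B * ((U * gu P hP hPs θ : Matrix.unitaryGroup (Fin d) ℂ) : Mat d)ᴴ) =
        Matrix.trace (B * (U : Mat d)ᴴ) +
          (Complex.exp (-(θ * Complex.I)) - 1) * Matrix.trace (B * P * (U : Mat d)ᴴ) := by
      rw [Submonoid.coe_mul, Matrix.conjTranspose_mul, gu_star, Matrix.add_mul, Matrix.one_mul,
        Matrix.smul_mul, Matrix.mul_add, Matrix.mul_smul, Matrix.trace_add, Matrix.trace_smul,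
        smul_eq_mul, Matrix.mul_assoc]
    rw [e1, e2]

/-! ## Rank one projections span -/

lemma span_proj (Ψ : Mat d →ₗ[ℂ] ℂ) (h : ∀ P : Mat d, P * P = P → Pᴴ = P → Ψ P = 0) : Ψ = 0 := by
  have hQ : ∀ v : Fin d → ℂ, Ψ (Matrix.vecMulVec v (star v)) = 0 := by
    intro v
    by_cases hv : v = 0
    · rw [hv]
      simp
    · set s : ℂ := star v ⬝ᵥ v with hs
      have hs0 : s ≠ 0 := by
        intro h0
        exact hv (dotProduct_star_self_eq_zero.1 h0)
      have hss : star s = s := by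
        exact (Matrix.star_dotProduct v v).symm
      have h1 : (s⁻¹ • Matrix.vecMulVec v (star v)) * (s⁻¹ • Matrix.vecMulVec v (star v)) =
          s⁻¹ • Matrix.vecMulVec v (star v) := by
        rw [Matrix.smul_mul, Matrix.mul_smul, Matrix.vecMulVec_mul_vecMulVec, ← hs,
          Matrix.vecMulVec_smul, smul_smul, smul_smul, mul_assoc, inv_mul_cancel₀ hs0, mul_one]
      have h2 : (s⁻¹ • Matrix.vecMulVec v (star v))ᴴ = s⁻¹ • Matrix.vecMulVec v (star v) := by
        rw [Matrix.conjTranspose_smul, star_inv₀, hss, Matrix.conjTranspose_vecMulVec, star_star]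
      have h3 := h _ h1 h2
      rw [map_smul, smul_eq_zero] at h3
      rcases h3 with h3 | h3
      · exact absurd h3 (inv_ne_zero hs0)
      · exact h3
  have hB : ∀ v w : Fin d → ℂ, Ψ (Matrix.vecMulVec v (star w)) = 0 := by
    intro v w
    have h1 := hQ (v + w)
    have h2 := hQ (v + Complex.I • w)
    have h3 := hQ v
    have h4 := hQ w
    rw [star_add, Matrix.add_vecMulVec, Matrix.vecMulVec_add, Matrix.vecMulVec_add, map_add,
      map_add, map_add, h3, h4] at h1
    rw [star_add, star_smul, Matrix.add_vecMulVec, Matrix.vecMulVec_add, Matrix.vecMulVec_add,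
      Matrix.smul_vecMulVec, Matrix.smul_vecMulVec, Matrix.vecMulVec_smul, Matrix.vecMulVec_smul,
      map_add, map_add, map_add, map_smul, map_smul, map_smul, map_smul, h3, h4] at h2
    have hI : star Complex.I = -Complex.I := Complex.conj_I
    rw [hI] at h2
    simp only [smul_eq_mul, mul_zero, add_zero, zero_add] at h1 h2
    have h5 : Complex.I * (2 * Ψ (Matrix.vecMulVec v (star w))) = 0 := by
      linear_combination Complex.I * h1 - h2
    rcases mul_eq_zero.1 h5 with h6 | h6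
    · exact absurd h6 Complex.I_ne_zero
    · rcases mul_eq_zero.1 h6 with h7 | h7
      · exact absurd h7 two_ne_zero
      · exact h7
  apply LinearMap.ext
  intro K
  rw [Matrix.matrix_eq_sum_single K, map_sum, LinearMap.zero_apply]
  apply Finset.sum_eq_zero
  intro i _
  rw [map_sum]
  apply Finset.sum_eq_zero
  intro j _
  have h1 : Matrix.single i j (K i j) =
      Matrix.vecMulVec (Pi.single i (K i j)) (star (Pi.single j (1 : ℂ))) := by
    ext a b
    rw [Matrix.vecMulVec_apply, Matrix.single_apply, Pi.star_apply]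
    by_cases ha : i = a
    · by_cases hb : j = b
      · subst ha hb; simp
      · rw [Pi.single_eq_of_ne (Ne.symm hb)]; simp [hb]
    · rw [Pi.single_eq_of_ne (Ne.symm ha)]; simp [ha]
  rw [h1]
  exact hB _ _

/-- an integral as a linear functional of a matrix -/
noncomputable def Psi (f g : Matrix.unitaryGroup (Fin d) ℂ → ℂ) (hf : Continuous f)
    (hg : Continuous g) (T : Matrix.unitaryGroup (Fin d) ℂ → (Mat d →ₗ[ℂ] ℂ))
    (hT : ∀ K, Continuous fun U => T U K) : Mat d →ₗ[ℂ] ℂ where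
  toFun K := (∫ U : Matrix.unitaryGroup (Fin d) ℂ, f U * Matrix.trace (K * (U : Mat d)) * g U
    ∂(haarU (Fin d))) - ∫ U, T U K ∂(haarU (Fin d))
  map_add' K L := by
    have h1 : ∀ U : Matrix.unitaryGroup (Fin d) ℂ,
        f U * Matrix.trace ((K + L) * (U : Mat d)) * g U =
          f U * Matrix.trace (K * (U : Mat d)) * g U +
            f U * Matrix.trace (L * (U : Mat d)) * g U := by
      intro U
      rw [Matrix.add_mul, Matrix.trace_add]
      ring
    simp only [h1, map_add]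
    rw [integral_add (integ (f := fun U : Matrix.unitaryGroup (Fin d) ℂ =>
        f U * Matrix.trace (K * (U : Mat d)) * g U) ((hf.mul (cont_tr K)).mul hg))
      (integ (f := fun U : Matrix.unitaryGroup (Fin d) ℂ =>
        f U * Matrix.trace (L * (U : Mat d)) * g U) ((hf.mul (cont_tr L)).mul hg)),
      integral_add (integ (hT K)) (integ (hT L))]
    ring
  map_smul' c K := by
    have h1 : ∀ U : Matrix.unitaryGroup (Fin d) ℂ,
        f U * Matrix.trace ((c • K) * (U : Mat d)) * g U =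
          c * (f U * Matrix.trace (K * (U : Mat d)) * g U) := by
      intro U
      rw [Matrix.smul_mul, Matrix.trace_smul, smul_eq_mul]
      ring
    simp only [h1, map_smul, smul_eq_mul, RingHom.id_apply]
    rw [integral_const_mul, integral_const_mul]
    ring

lemma Psi_apply (f g : Matrix.unitaryGroup (Fin d) ℂ → ℂ) (hf : Continuous f)
    (hg : Continuous g) (T : Matrix.unitaryGroup (Fin d) ℂ → (Mat d →ₗ[ℂ] ℂ))
    (hT : ∀ K, Continuous fun U => T U K) (K : Mat d) : Psi f g hf hg T hT K =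
    (∫ U : Matrix.unitaryGroup (Fin d) ℂ, f U * Matrix.trace (K * (U : Mat d)) * g U
      ∂(haarU (Fin d))) - ∫ U, T U K ∂(haarU (Fin d)) := rfl

end

theorem t_SD : S_SD := by
  intro d t K B
  have hf : Continuous fun U : Matrix.unitaryGroup (Fin d) ℂ => (Matrix.trace (U : Mat d)) ^ t :=
    cont_tr0.pow t
  have hg : Continuous fun U : Matrix.unitaryGroup (Fin d) ℂ =>
      (Matrix.trace (B * (U : Mat d)ᴴ)) ^ (t + 1) := (cont_tr' B).pow _
  have hT1 : ∀ L : Mat d, Continuous fun U : Matrix.unitaryGroup (Fin d) ℂ =>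
      (((Matrix.trace (U : Mat d)) ^ (t + 1) * (Matrix.trace (B * (U : Mat d)ᴴ)) ^ t) •
        ((Matrix.traceLinearMap (Fin d) ℂ ℂ) ∘ₗ (LinearMap.mulRight ℂ (B * (U : Mat d)ᴴ)))) L := by
    intro L
    have : (fun U : Matrix.unitaryGroup (Fin d) ℂ =>
      (((Matrix.trace (U : Mat d)) ^ (t + 1) * (Matrix.trace (B * (U : Mat d)ᴴ)) ^ t) •
        ((Matrix.traceLinearMap (Fin d) ℂ ℂ) ∘ₗ (LinearMap.mulRight ℂ (B * (U : Mat d)ᴴ)))) L) =
        fun U : Matrix.unitaryGroup (Fin d) ℂ => ((Matrix.trace (U : Mat d)) ^ (t + 1) * (Matrix.trace (B * (U : Mat d)ᴴ)) ^ t) *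
          Matrix.trace ((L * B) * (U : Mat d)ᴴ) := by
      funext U
      simp [Matrix.mul_assoc]
    rw [this]
    exact ((cont_tr0.pow _).mul ((cont_tr' B).pow _)).mul (cont_tr' _)
  have hT2 : ∀ L : Mat d, Continuous fun U : Matrix.unitaryGroup (Fin d) ℂ =>
      (((Matrix.trace (U : Mat d)) ^ (t + 1) * (Matrix.trace (B * (U : Mat d)ᴴ)) ^ t) •
        ((Matrix.traceLinearMap (Fin d) ℂ ℂ) ∘ₗ (LinearMap.mulRight ℂ ((U : Mat d)ᴴ)) ∘ₗ
          (LinearMap.mulLeft ℂ B))) L := by
    intro L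
    have : (fun U : Matrix.unitaryGroup (Fin d) ℂ =>
      (((Matrix.trace (U : Mat d)) ^ (t + 1) * (Matrix.trace (B * (U : Mat d)ᴴ)) ^ t) •
        ((Matrix.traceLinearMap (Fin d) ℂ ℂ) ∘ₗ (LinearMap.mulRight ℂ ((U : Mat d)ᴴ)) ∘ₗ
          (LinearMap.mulLeft ℂ B))) L) =
        fun U : Matrix.unitaryGroup (Fin d) ℂ => ((Matrix.trace (U : Mat d)) ^ (t + 1) * (Matrix.trace (B * (U : Mat d)ᴴ)) ^ t) *
          Matrix.trace ((B * L) * (U : Mat d)ᴴ) := by
      funext U
      simp
    rw [this]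
    exact ((cont_tr0.pow _).mul ((cont_tr' B).pow _)).mul (cont_tr' _)
  have h1 := span_proj (Psi _ _ hf hg _ hT1) (by
    intro P hP hPs
    rw [Psi_apply, sub_eq_zero, (sd_proj t B P hP hPs).1]
    congr 1
    funext U
    simp [Matrix.mul_assoc, mul_assoc])
  have h2 := span_proj (Psi _ _ hf hg _ hT2) (by
    intro P hP hPs
    rw [Psi_apply, sub_eq_zero, (sd_proj t B P hP hPs).2]
    congr 1
    funext U
    simp [mul_assoc])
  constructor
  · have h3 := congrArg (fun Φ : Mat d →ₗ[ℂ] ℂ => Φ K) h1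
    simp only [Psi_apply, LinearMap.zero_apply] at h3
    rw [sub_eq_zero] at h3
    rw [h3]
    congr 1
    funext U
    simp [Matrix.mul_assoc, mul_assoc]
  · have h3 := congrArg (fun Φ : Mat d →ₗ[ℂ] ℂ => Φ K) h2
    simp only [Psi_apply, LinearMap.zero_apply] at h3
    rw [sub_eq_zero] at h3
    rw [h3]
    congr 1
    funext U
    simp [mul_assoc]

end Pool.Agent.J4H79.QB
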